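import Pool.Agent.H98.PW.Stmts

/-!
# PW, row PATH: two points of the same class have proportional terms
-/

set_option autoImplicit false
set_option linter.all false

namespace Pool.PW

open Finset Filter MvPolynomial Pool.Agent.H98.ABCR

namespace PathAux

variable {n : ℕ} {A B : Type*} [CommRing A] [CommRing B]

/-- chain rule -/
lemma chain (φ : A →+* B) (D : B → B) (hadd : ∀ a b, D (a + b) = D a + D b)
    (hmul : ∀ a b, D (a * b) = a * D b + b * D a) (hφ : ∀ a, D (φ a) = 0) (Y : Fin n → B)
    (F : MvPolynomial (Fin n) A) :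
    D (eval₂Hom φ Y F) = ∑ k, eval₂Hom φ Y (pderiv k F) * D (Y k) := by
  induction F using MvPolynomial.induction_on with
  | C a => simp [hφ]
  | add p q hp hq => simp only [map_add, hadd, hp, hq, add_mul, Finset.sum_add_distrib]
  | mul_X p i hp =>
    rw [map_mul, eval₂Hom_X', hmul, hp]
    have h : ∀ k, eval₂Hom φ Y (pderiv k (p * X i)) * D (Y k) =
        (if k = i then eval₂Hom φ Y p * D (Y i) else 0) +
          Y i * (eval₂Hom φ Y (pderiv k p) * D (Y k)) := by
      intro k
      rw [Derivation.leibniz, pderiv_X, smul_eq_mul, smul_eq_mul, map_add, map_mul, map_mul,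
        eval₂Hom_X']
      by_cases hk : k = i
      · subst hk; simp; ring
      · simp [Pi.single_apply, hk, Ne.symm hk]; ring
    rw [Finset.sum_congr rfl (fun k _ => h k), Finset.sum_add_distrib, ← Finset.mul_sum]
    simp

/-- the flow along the vector field -/
lemma flow (φ : A →+* B) (D : B → B) (hadd : ∀ a b, D (a + b) = D a + D b)
    (hmul : ∀ a b, D (a * b) = a * D b + b * D a) (hφ : ∀ a, D (φ a) = 0) (Y w : Fin n → B)
    (J : Finset (Fin n)) (G : Fin n → MvPolynomial (Fin n) A) (hY : ∀ i ∈ J, D (Y i) = w i)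
    (hG : ∀ k, k ∉ J → eval₂Hom φ Y (G k) = 0)
    (hv : ∀ k, k ∉ J → ∀ l, l ∉ J → l ≠ k → pderiv l (G k) = 0)
    (F : MvPolynomial (Fin n) A) :
    eval₂Hom φ Y (bb J G) * D (eval₂Hom φ Y F) = ∑ i ∈ J, w i * eval₂Hom φ Y (EE J G i F) := by
  have D0 : D 0 = 0 := by
    have := hadd 0 0
    simpa using this
  have sp : ∀ f : Fin n → B, ∑ k, f k = ∑ k ∈ J, f k + ∑ k ∈ univ \ J, f k := by
    intro f
    rw [add_comm, Finset.sum_sdiff (Finset.subset_univ J)]
  -- the relations
  have rel : ∀ k ∈ univ \ J, eval₂Hom φ Y (pderiv k (G k)) * D (Y k) =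
      - ∑ i ∈ J, w i * eval₂Hom φ Y (pderiv i (G k)) := by
    intro k hk
    have hk' : k ∉ J := by simpa using hk
    have h := chain φ D hadd hmul hφ Y (G k)
    rw [hG k hk', D0, sp] at h
    have h2 : ∑ l ∈ univ \ J, eval₂Hom φ Y (pderiv l (G k)) * D (Y l) =
        eval₂Hom φ Y (pderiv k (G k)) * D (Y k) := by
      apply Finset.sum_eq_single_of_mem k hk
      intro l hl hlk
      rw [hv k hk' l (by simpa using hl) hlk, map_zero, zero_mul]
    have h3 : ∑ i ∈ J, eval₂Hom φ Y (pderiv i (G k)) * D (Y i) =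
        ∑ i ∈ J, w i * eval₂Hom φ Y (pderiv i (G k)) := by
      apply Finset.sum_congr rfl
      intro i hi
      rw [hY i hi, mul_comm]
    rw [h2, h3] at h
    linear_combination -h
  have hbb : ∀ k ∈ univ \ J, eval₂Hom φ Y (bb J G) =
      eval₂Hom φ Y (bk J G k) * eval₂Hom φ Y (pderiv k (G k)) := by
    intro k hk
    rw [← map_mul]
    congr 1
    rw [bb, bk, mul_comm, Finset.mul_prod_erase _ (fun l => pderiv l (G l)) hk]
  rw [chain φ D hadd hmul hφ Y F, sp, mul_add, Finset.mul_sum, Finset.mul_sum]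
  have e1 : ∀ i ∈ J, eval₂Hom φ Y (bb J G) * (eval₂Hom φ Y (pderiv i F) * D (Y i)) =
      w i * (eval₂Hom φ Y (bb J G) * eval₂Hom φ Y (pderiv i F)) := by
    intro i hi
    rw [hY i hi]; ring
  have e2 : ∀ k ∈ univ \ J, eval₂Hom φ Y (bb J G) * (eval₂Hom φ Y (pderiv k F) * D (Y k)) =
      - ∑ i ∈ J, w i * (eval₂Hom φ Y (bk J G k) * eval₂Hom φ Y (pderiv i (G k)) *
        eval₂Hom φ Y (pderiv k F)) := by
    intro k hk
    have h1 := rel k hk
    have h2 : ∑ i ∈ J, w i * (eval₂Hom φ Y (bk J G k) * eval₂Hom φ Y (pderiv i (G k)) *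
        eval₂Hom φ Y (pderiv k F)) = eval₂Hom φ Y (bk J G k) * eval₂Hom φ Y (pderiv k F) *
          ∑ i ∈ J, w i * eval₂Hom φ Y (pderiv i (G k)) := by
      rw [Finset.mul_sum]
      apply Finset.sum_congr rfl
      intro i _
      ring
    rw [h2, hbb k hk]
    linear_combination (eval₂Hom φ Y (bk J G k) * eval₂Hom φ Y (pderiv k F)) * h1
  rw [Finset.sum_congr rfl e1, Finset.sum_congr rfl e2, Finset.sum_neg_distrib, Finset.sum_comm,
    ← sub_eq_add_neg, ← Finset.sum_sub_distrib]
  apply Finset.sum_congr rfl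
  intro i _
  rw [EE, map_sub, map_mul, map_sum, mul_sub, Finset.mul_sum]
  simp only [map_mul]


/-- a term at a point of a commutative ring -/
noncomputable def TT {S : Type*} [CommRing S] {n : ℕ} (e : Fin n → ℕ) (sd : Fin n → Fin 3)
    (α : Fin 3 → ℕ) (z : Fin n → S) (s : Fin 3) : S :=
  (α s : S) * ∏ k ∈ univ.filter (fun k => sd k = s), z k ^ e k

lemma map_TT {S S' : Type*} [CommRing S] [CommRing S'] (f : S →+* S') {n : ℕ} (e : Fin n → ℕ)
    (sd : Fin n → Fin 3) (α : Fin 3 → ℕ) (z : Fin n → S) (s : Fin 3) :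
    f (TT e sd α z s) = TT e sd α (fun k => f (z k)) s := by
  simp [TT, map_prod]

lemma eval_tmp {S A : Type*} [CommRing S] [CommRing A] (φ : A →+* S) {n : ℕ} (e : Fin n → ℕ)
    (sd : Fin n → Fin 3) (α : Fin 3 → ℕ) (z : Fin n → S) (s : Fin 3) :
    eval₂Hom φ z (tmp e sd α s) = TT e sd α z s := by
  rw [TT, tmp, map_mul, map_prod, eval₂Hom_C, map_natCast]
  simp only [map_pow, eval₂Hom_X']

lemma TT_nat {S : Type*} [CommRing S] {n : ℕ} (e : Fin n → ℕ) (sd : Fin n → Fin 3)
    (α : Fin 3 → ℕ) (x : Fin n → ℕ) (s : Fin 3) :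
    TT e sd α (fun k => (x k : S)) s = ((tm e sd α s x : ℕ) : S) := by
  simp [TT, tm]

/-- values of integer polynomials -/
lemma eval_int {S : Type*} [CommRing S] {n : ℕ} (z : Fin n → ℤ) (F : MvPolynomial (Fin n) ℤ) :
    eval₂Hom (Int.castRingHom S) (fun k => (z k : S)) F = ((eval z F : ℤ) : S) := by
  have h := map_eval₂Hom (RingHom.id ℤ) z (Int.castRingHom S) F
  have h2 : eval₂Hom (RingHom.id ℤ) z F = eval z F := rfl
  rw [h2] at h
  rw [← eq_intCast (Int.castRingHom S), h]
  rfl

end PathAux

open PathAux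

theorem path_thm (hen : S_HEN) (evn : S_EVN) (unq : S_UNQ) (ode : S_ODE) (dlg : S_DLG) :
    S_PATH := by
  intro n p q J g G e sd α s t Fs Q Q' P x hp hg hF hxi hFP hP hgx hx hbb
  haveI : Fact p.Prime := ⟨hp⟩
  choose w hw using hx
  -- factors
  have hfac : ∀ k, k ∉ J → ¬ (p : ℤ) ∣ eval (pt P) (pderiv k (g k)) := by
    intro k hk hd
    apply hbb
    rw [bb, map_prod]
    exact hd.trans (Finset.dvd_prod_of_mem _ (by simpa using hk))
  have hdz : ∀ k, k ∉ J → ∀ l, l ∉ J → l ≠ k → pderiv l (g k) = 0 := by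
    intro k hk l hl hlk
    apply pderiv_eq_zero_of_notMem_vars
    intro h
    have := (hg k hk).1 h
    simp [hl, hlk] at this
  -- the path
  let yJ : Fin n → PowerSeries ℤ_[p] := fun k =>
    PowerSeries.C (P k : ℤ_[p]) + PowerSeries.X * PowerSeries.C (w k : ℤ_[p])
  have hyJ : ∀ k, PowerSeries.constantCoeff (yJ k) = (P k : ℤ_[p]) := by
    intro k; simp [yJ]
  let cz : ℤ →+* PowerSeries ℤ_[p] := Int.castRingHom _
  have hex : ∀ k, ∃ y : PowerSeries ℤ_[p], PowerSeries.constantCoeff y = (P k : ℤ_[p]) ∧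
      (k ∉ J → eval₂Hom cz (fun l => if l = k then y else yJ l) (g k) = 0) := by
    intro k
    by_cases hk : k ∈ J
    · exact ⟨yJ k, hyJ k, fun h => absurd hk h⟩
    let gk : Polynomial (PowerSeries ℤ_[p]) := eval₂Hom (Int.castRingHom _)
      (fun l => if l = k then Polynomial.X else Polynomial.C (yJ l)) (g k)
    have hev : ∀ (F : MvPolynomial (Fin n) ℤ) (y : PowerSeries ℤ_[p]),
        (eval₂Hom (Int.castRingHom (Polynomial (PowerSeries ℤ_[p])))
          (fun l => if l = k then Polynomial.X else Polynomial.C (yJ l)) F).eval y =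
          eval₂Hom cz (fun l => if l = k then y else yJ l) F := by
      intro F y
      have h := map_eval₂Hom (Int.castRingHom (Polynomial (PowerSeries ℤ_[p])))
        (fun l => if l = k then Polynomial.X else Polynomial.C (yJ l)) (Polynomial.evalRingHom y) F
      rw [Polynomial.coe_evalRingHom] at h
      rw [h]
      apply eval₂Hom_congr' (Subsingleton.elim _ _) _ rfl
      intro l _ _
      by_cases hl : l = k <;> simp [hl]
    have hcc : ∀ F : MvPolynomial (Fin n) ℤ, PowerSeries.constantCoeff
        (eval₂Hom cz (fun l => if l = k then (PowerSeries.C (P k : ℤ_[p])) else yJ l) F) =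
        ((eval (pt P) F : ℤ) : ℤ_[p]) := by
      intro F
      rw [map_eval₂Hom, ← eval_int]
      apply eval₂Hom_congr' (Subsingleton.elim _ _) _ rfl
      intro l _ _
      by_cases hl : l = k
      · subst hl; simp [pt]
      · simp [hl, hyJ, pt]
    have hder : gk.derivative = eval₂Hom (Int.castRingHom (Polynomial (PowerSeries ℤ_[p])))
        (fun l => if l = k then Polynomial.X else Polynomial.C (yJ l)) (pderiv k (g k)) := by
      have h := chain (Int.castRingHom (Polynomial (PowerSeries ℤ_[p])))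
        (fun f => Polynomial.derivative f) (fun a b => by simp) (fun a b => by
          simp only [Polynomial.derivative_mul]; ring) (fun a => by simp)
        (fun l => if l = k then Polynomial.X else Polynomial.C (yJ l)) (g k)
      simp only [gk]
      rw [h, Finset.sum_eq_single k]
      · simp
      · intro l _ hl; simp [hl]
      · simp
    obtain ⟨y, hy1, hy2⟩ := hen p gk (P k : ℤ_[p]) (by
      rw [hev, hcc, (hgx k hk).1]; simp) (by
      rw [hder, hev, hcc, PadicInt.isUnit_iff]
      have h1 := (PadicInt.norm_int_lt_one_iff_dvd (p := p) (eval (pt P) (pderiv k (g k)))).not.mpr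
        (hfac k hk)
      exact le_antisymm (PadicInt.norm_le_one _) (not_lt.mp h1))
    exact ⟨y, hy1, fun _ => by rw [← hev]; exact hy2⟩
  choose y' hy'1 hy'2 using hex
  let y : Fin n → PowerSeries ℤ_[p] := fun k => if k ∈ J then yJ k else y' k
  have hyc : ∀ k, PowerSeries.constantCoeff (y k) = (P k : ℤ_[p]) := by
    intro k
    by_cases hk : k ∈ J
    · simp only [y, if_pos hk]; exact hyJ k
    · simp only [y, if_neg hk]; exact hy'1 k
  have hyg : ∀ k, k ∉ J → eval₂Hom cz y (g k) = 0 := by
    intro k hk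
    rw [← hy'2 k hk]
    apply eval₂Hom_congr' rfl _ rfl
    intro l hl _
    have hl' := (hg k hk).1 hl
    rcases Finset.mem_insert.mp hl' with h | h
    · subst h; simp [y, hk]
    · have hlk : l ≠ k := fun hh => hk (hh ▸ h)
      simp [y, h, hlk]
  -- over the field
  let Φ : PowerSeries ℤ_[p] →+* PowerSeries ℚ_[p] := PowerSeries.map (algebraMap ℤ_[p] ℚ_[p])
  let Y : Fin n → PowerSeries ℚ_[p] := fun k => Φ (y k)
  let φ : ℚ →+* PowerSeries ℚ_[p] := (PowerSeries.C).comp (algebraMap ℚ ℚ_[p])
  have hYc : ∀ k, PowerSeries.constantCoeff (Y k) = (P k : ℚ_[p]) := by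
    intro k
    have : PowerSeries.constantCoeff (Y k) =
        algebraMap ℤ_[p] ℚ_[p] (PowerSeries.constantCoeff (y k)) := by
      simp only [Y, Φ]
      rw [← PowerSeries.coeff_zero_eq_constantCoeff_apply,
        ← PowerSeries.coeff_zero_eq_constantCoeff_apply, PowerSeries.coeff_map]
    rw [this, hyc]; simp
  have hEint : ∀ F : MvPolynomial (Fin n) ℤ,
      eval₂Hom φ Y (map (Int.castRingHom ℚ) F) = Φ (eval₂Hom cz y F) := by
    intro F
    rw [eval₂Hom_map_hom, map_eval₂Hom]
    exact eval₂Hom_congr' (Subsingleton.elim _ _) (fun _ _ _ => rfl) rfl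
  have hEc : ∀ F : MvPolynomial (Fin n) ℚ, PowerSeries.constantCoeff (eval₂Hom φ Y F) =
      algebraMap ℚ ℚ_[p] (eval (fun k => (P k : ℚ)) F) := by
    intro F
    have h2 : eval (fun k => (P k : ℚ)) F = eval₂Hom (RingHom.id ℚ) (fun k => (P k : ℚ)) F := rfl
    rw [map_eval₂Hom, h2, map_eval₂Hom]
    apply eval₂Hom_congr' (Subsingleton.elim _ _) _ rfl
    intro l _ _
    rw [hYc]; simp
  let D : PowerSeries ℚ_[p] → PowerSeries ℚ_[p] := fun f => PowerSeries.derivative ℚ_[p] f
  have Dadd : ∀ a b, D (a + b) = D a + D b := fun a b => map_add _ _ _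
  have Dmul : ∀ a b, D (a * b) = a * D b + b * D a := fun a b => by
    simp only [D]
    rw [Derivation.leibniz, smul_eq_mul, smul_eq_mul]
  have Dφ : ∀ a, D (φ a) = 0 := fun a => by
    simp [D, φ]
  have DY : ∀ i ∈ J, D (Y i) = PowerSeries.C (w i : ℚ_[p]) := by
    intro i hi
    have h1 : Y i = PowerSeries.C (P i : ℚ_[p]) + PowerSeries.X * PowerSeries.C (w i : ℚ_[p]) := by
      simp [Y, y, hi, yJ, Φ]
    rw [h1]
    simp only [D]
    rw [map_add, Derivation.leibniz]
    simp
  have hfl := flow φ D Dadd Dmul Dφ Y (fun i => PowerSeries.C (w i : ℚ_[p])) J G DY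
    (fun k hk => by rw [(hg k hk).2, hEint, hyg k hk, map_zero])
    (fun k hk l hl hlk => by rw [(hg k hk).2, pderiv_map, hdz k hk l hl hlk, map_zero])
  set b := eval₂Hom φ Y (bb J G) with hb
  have hbc : PowerSeries.constantCoeff b ≠ 0 := by
    have h1 : bb J G = map (Int.castRingHom ℚ) (bb J g) := by
      rw [bb, bb, map_prod]
      apply Finset.prod_congr rfl
      intro k hk
      rw [(hg k (by simpa using hk)).2, pderiv_map]
    have h2 : eval (fun k => (P k : ℚ)) (map (Int.castRingHom ℚ) (bb J g)) =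
        ((eval (pt P) (bb J g) : ℤ) : ℚ) := by
      rw [eval_map]
      exact eval_int (S := ℚ) (pt P) (bb J g)
    rw [hb, hEc, h1, h2]
    intro h
    apply hbb
    have h3 : (eval (pt P) (bb J g) : ℤ) = 0 := by
      have := (map_eq_zero_iff _ (algebraMap ℚ ℚ_[p]).injective).mp h
      exact_mod_cast this
    rw [h3]; exact dvd_zero _
  -- the polynomials of the ideal vanish on the path
  have hzero : ∀ a, eval₂Hom φ Y (Fs a) = 0 := by
    apply ode ℚ_[p] q b (fun a => eval₂Hom φ Y (Fs a))
      (fun a c => ∑ i ∈ J, PowerSeries.C (w i : ℚ_[p]) * eval₂Hom φ Y (Q i a c)) hbc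
    · intro a
      rw [hEc, hFP, map_zero]
    · intro a
      have h := hfl (Fs a)
      simp only [D] at h
      rw [h]
      have h1 : ∀ i ∈ J, PowerSeries.C (w i : ℚ_[p]) * eval₂Hom φ Y (EE J G i (Fs a)) =
          ∑ c, PowerSeries.C (w i : ℚ_[p]) * eval₂Hom φ Y (Q i a c) * eval₂Hom φ Y (Fs c) := by
        intro i hi
        rw [hF i hi a, map_sum, Finset.mul_sum]
        apply Finset.sum_congr rfl
        intro c _
        rw [map_mul]; ring
      rw [Finset.sum_congr rfl h1, Finset.sum_comm]
      apply Finset.sum_congr rfl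
      intro c _
      rw [Finset.sum_mul]
  have hxi0 : ∀ i ∈ J, eval₂Hom φ Y (xi J G (fun k => (e k : ℚ)) sd i s) =
      eval₂Hom φ Y (xi J G (fun k => (e k : ℚ)) sd i t) := by
    intro i hi
    rw [← sub_eq_zero, ← map_sub, hxi i hi, map_sum]
    apply Finset.sum_eq_zero
    intro c _
    rw [map_mul, hzero c, mul_zero]
  -- the terms
  have hprod : ∀ s' : Fin 3, (∏ k, Y k) * (b * D (TT e sd α Y s')) = TT e sd α Y s' *
      ∑ i ∈ J, PowerSeries.C (w i : ℚ_[p]) *
        eval₂Hom φ Y (xi J G (fun k => (e k : ℚ)) sd i s') := by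
    intro s'
    have h := hfl (tmp e sd α s')
    rw [eval_tmp] at h
    rw [h, Finset.mul_sum, Finset.mul_sum]
    apply Finset.sum_congr rfl
    intro i _
    have h2 := congrArg (eval₂Hom φ Y) ((dlg ℚ n J G i).2.2.2 e sd α s')
    rw [map_mul, map_mul, map_prod, eval_tmp] at h2
    simp only [eval₂Hom_X'] at h2
    linear_combination (PowerSeries.C (w i : ℚ_[p])) * h2
  have hPr : (∏ k, Y k) ≠ 0 := by
    intro h
    have h1 := congrArg PowerSeries.constantCoeff h
    rw [map_prod, map_zero, Finset.prod_eq_zero_iff] at h1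
    obtain ⟨k, _, hk⟩ := h1
    rw [hYc] at hk
    have := hP k
    have h3 : (P k : ℚ_[p]) ≠ 0 := by exact_mod_cast (by omega : P k ≠ 0)
    exact h3 hk
  have hb0 : b ≠ 0 := fun h => hbc (by rw [h]; simp)
  have hcross : D (TT e sd α Y s) * TT e sd α Y t = TT e sd α Y s * D (TT e sd α Y t) := by
    have h1 := hprod s
    have h2 := hprod t
    rw [Finset.sum_congr rfl (fun i hi => by rw [hxi0 i hi])] at h1
    have h3 : (∏ k, Y k) * b ≠ 0 := mul_ne_zero hPr hb0
    apply mul_left_cancel₀ h3
    linear_combination (TT e sd α Y t) * h1 - (TT e sd α Y s) * h2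
  have hTc : ∀ s', PowerSeries.constantCoeff (TT e sd α Y s') = ((tm e sd α s' P : ℕ) : ℚ_[p]) := by
    intro s'
    rw [map_TT, ← TT_nat]
    congr 1
    funext k
    exact hYc k
  have hprop : TT e sd α Y s * ((tm e sd α t P : ℕ) : PowerSeries ℚ_[p]) =
      TT e sd α Y t * ((tm e sd α s P : ℕ) : PowerSeries ℚ_[p]) := by
    by_cases hα : α t = 0
    · have h1 : TT e sd α Y t = 0 := by simp [TT, hα]
      have h2 : tm e sd α t P = 0 := by simp [tm, hα]
      rw [h1, h2]; simp
    have hne : PowerSeries.constantCoeff (TT e sd α Y t) ≠ 0 := by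
      rw [hTc]
      have : tm e sd α t P ≠ 0 := by
        rw [tm]
        apply mul_ne_zero hα
        apply Finset.prod_ne_zero_iff.mpr
        intro k _
        have := hP k
        positivity
      exact_mod_cast this
    have h := ode ℚ_[p] 1 (TT e sd α Y t)
      (fun _ => TT e sd α Y s * ((tm e sd α t P : ℕ) : PowerSeries ℚ_[p]) -
        TT e sd α Y t * ((tm e sd α s P : ℕ) : PowerSeries ℚ_[p]))
      (fun _ _ => D (TT e sd α Y t)) hne (by
        intro _
        rw [map_sub, map_mul, map_mul, hTc, hTc, map_natCast, map_natCast]; ring) (by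
        intro _
        simp only [Finset.univ_unique, Finset.sum_singleton]
        have hD : ∀ (f : PowerSeries ℚ_[p]) (m : ℕ), D (f * (m : PowerSeries ℚ_[p])) =
            D f * (m : PowerSeries ℚ_[p]) := by
          intro f m
          have h0 : D (m : PowerSeries ℚ_[p]) = 0 := by
            have := Dφ (m : ℚ)
            rwa [map_natCast] at this
          rw [Dmul, h0]; ring
        have h1 : PowerSeries.derivative ℚ_[p]
            (TT e sd α Y s * ((tm e sd α t P : ℕ) : PowerSeries ℚ_[p]) -
            TT e sd α Y t * ((tm e sd α s P : ℕ) : PowerSeries ℚ_[p])) =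
            D (TT e sd α Y s * ((tm e sd α t P : ℕ) : PowerSeries ℚ_[p])) -
            D (TT e sd α Y t * ((tm e sd α s P : ℕ) : PowerSeries ℚ_[p])) := map_sub _ _ _
        rw [h1, hD, hD]
        linear_combination ((tm e sd α t P : ℕ) : PowerSeries ℚ_[p]) * hcross) 0
    exact sub_eq_zero.mp h
  -- back to the integers
  have hinj : Function.Injective Φ := PowerSeries.map_injective _ (FaithfulSMul.algebraMap_injective _ _)
  have hpropZ : TT e sd α y s * ((tm e sd α t P : ℕ) : PowerSeries ℤ_[p]) =
      TT e sd α y t * ((tm e sd α s P : ℕ) : PowerSeries ℤ_[p]) := by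
    apply hinj
    rw [map_mul, map_mul, map_natCast, map_natCast, map_TT, map_TT]
    exact hprop
  -- modulo the powers of `p`
  have hmod : ∀ N, (((tm e sd α s P * tm e sd α t x : ℕ)) : ZMod (p ^ N)) =
      ((tm e sd α s x * tm e sd α t P : ℕ) : ZMod (p ^ N)) := by
    intro N
    obtain ⟨θ, hθC, hθX⟩ := evn p N
    have hθJ : ∀ k, θ (yJ k) = (x k : ZMod (p ^ N)) := by
      intro k
      have h1 : ((x k : ℤ) : ZMod (p ^ N)) = (((P k : ℤ) + p * w k : ℤ) : ZMod (p ^ N)) := by
        rw [← hw k]; congr 1; ring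
      simp only [yJ]
      rw [map_add, map_mul, hθC, hθX, hθC, map_natCast, map_intCast]
      push_cast at h1
      rw [h1]
    have hθ : ∀ k, θ (y k) = (x k : ZMod (p ^ N)) := by
      intro k
      by_cases hk : k ∈ J
      · simp only [y, if_pos hk]; exact hθJ k
      simp only [y, if_neg hk]
      let gk : Polynomial (ZMod (p ^ N)) := eval₂Hom (Int.castRingHom _)
        (fun l => if l = k then Polynomial.X else Polynomial.C (x l : ZMod (p ^ N))) (g k)
      have hev : ∀ (F : MvPolynomial (Fin n) ℤ) (z : ZMod (p ^ N)),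
          (eval₂Hom (Int.castRingHom (Polynomial (ZMod (p ^ N))))
            (fun l => if l = k then Polynomial.X else Polynomial.C (x l : ZMod (p ^ N))) F).eval z =
          eval₂Hom (Int.castRingHom (ZMod (p ^ N)))
            (fun l => if l = k then z else (x l : ZMod (p ^ N))) F := by
        intro F z
        have h := map_eval₂Hom (Int.castRingHom (Polynomial (ZMod (p ^ N))))
          (fun l => if l = k then Polynomial.X else Polynomial.C (x l : ZMod (p ^ N)))
          (Polynomial.evalRingHom z) F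
        rw [Polynomial.coe_evalRingHom] at h
        rw [h]
        apply eval₂Hom_congr' (Subsingleton.elim _ _) _ rfl
        intro l _ _
        by_cases hl : l = k <;> simp [hl]
      have hder : gk.derivative = eval₂Hom (Int.castRingHom (Polynomial (ZMod (p ^ N))))
          (fun l => if l = k then Polynomial.X else Polynomial.C (x l : ZMod (p ^ N)))
          (pderiv k (g k)) := by
        have h := chain (Int.castRingHom (Polynomial (ZMod (p ^ N))))
          (fun f => Polynomial.derivative f) (fun a b => by simp) (fun a b => by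
            simp only [Polynomial.derivative_mul]; ring) (fun a => by simp)
          (fun l => if l = k then Polynomial.X else Polynomial.C (x l : ZMod (p ^ N))) (g k)
        simp only [gk]
        rw [h, Finset.sum_eq_single k]
        · simp
        · intro l _ hl; simp [hl]
        · simp
      have hxx : ∀ F : MvPolynomial (Fin n) ℤ, eval₂Hom (Int.castRingHom (ZMod (p ^ N)))
          (fun l => if l = k then (x k : ZMod (p ^ N)) else (x l : ZMod (p ^ N))) F =
          ((eval (pt x) F : ℤ) : ZMod (p ^ N)) := by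
        intro F
        rw [← eval_int]
        apply eval₂Hom_congr' rfl _ rfl
        intro l _ _
        by_cases hl : l = k
        · subst hl; simp [pt]
        · simp [hl, pt]
      symm
      apply unq p N gk _ _ hp
      · -- congruent modulo p
        obtain ⟨v, hv⟩ : ∃ v, y' k = PowerSeries.C (P k : ℤ_[p]) + PowerSeries.X * v := by
          have h1 : PowerSeries.constantCoeff (y' k - PowerSeries.C (P k : ℤ_[p])) = 0 := by
            rw [map_sub, hy'1]; simp
          obtain ⟨v, hv⟩ := PowerSeries.X_dvd_iff.mpr h1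
          exact ⟨v, by rw [← hv]; ring⟩
        refine ⟨(w k : ZMod (p ^ N)) - θ v, ?_⟩
        have h1 : ((x k : ℤ) : ZMod (p ^ N)) = (((P k : ℤ) + p * w k : ℤ) : ZMod (p ^ N)) := by
          rw [← hw k]; congr 1; ring
        push_cast at h1
        rw [hv, map_add, map_mul, hθC, hθX, map_natCast, h1]
        ring
      · simp only [gk]
        rw [hev, hxx, (hgx k hk).2]; simp
      · simp only [gk]
        rw [hev]
        have h1 := congrArg θ (hy'2 k hk)
        rw [map_eval₂Hom, map_zero] at h1
        rw [← h1]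
        apply eval₂Hom_congr' (Subsingleton.elim _ _) _ rfl
        intro l _ _
        by_cases hl : l = k
        · subst hl; simp
        · simp [hl, hθJ]
      · rw [hder, hev, hxx]
        have h1 : ¬ (p : ℤ) ∣ eval (pt x) (pderiv k (g k)) := by
          intro h
          apply hfac k hk
          have h2 : ((eval (pt x) (pderiv k (g k)) : ℤ) : ZMod p) = 0 :=
            (ZMod.intCast_zmod_eq_zero_iff_dvd _ _).mpr h
          rw [← ZMod.intCast_zmod_eq_zero_iff_dvd, ← h2, ← eval_int, ← eval_int]
          apply eval₂Hom_congr' rfl _ rfl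
          intro l _ _
          have h3 : ((x l : ℤ) : ZMod p) = (((P l : ℤ) + p * w l : ℤ) : ZMod p) := by
            rw [← hw l]; congr 1; ring
          push_cast at h3
          simp only [pt]
          push_cast
          rw [h3]; simp
        have h2 : IsCoprime (eval (pt x) (pderiv k (g k))) ((p : ℤ) ^ N) := by
          apply IsCoprime.pow_right
          exact ((Nat.prime_iff_prime_int.mp hp).coprime_iff_not_dvd.mpr h1).symm
        obtain ⟨a, c, hac⟩ := h2
        have h3 := congrArg (Int.cast : ℤ → ZMod (p ^ N)) hac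
        push_cast at h3
        have h4 : ((p : ZMod (p ^ N)) ^ N) = 0 := by
          have := ZMod.natCast_self (p ^ N)
          push_cast at this
          exact this
        rw [h4, mul_zero, add_zero] at h3
        exact IsUnit.of_mul_eq_one _ (by rw [mul_comm]; exact h3)
    have h := congrArg θ hpropZ
    rw [map_mul, map_mul, map_natCast, map_natCast, map_TT, map_TT] at h
    have h1 : (fun k => θ (y k)) = fun k => (x k : ZMod (p ^ N)) := funext hθ
    rw [h1, TT_nat, TT_nat] at h
    push_cast
    linear_combination -h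
  have h1 := (ZMod.natCast_eq_natCast_iff _ _ _).mp
    (hmod (tm e sd α s P * tm e sd α t x + tm e sd α s x * tm e sd α t P))
  have h2 := Nat.lt_pow_self hp.one_lt
    (n := tm e sd α s P * tm e sd α t x + tm e sd α s x * tm e sd α t P)
  exact Nat.ModEq.eq_of_lt_of_lt h1 (by omega) (by omega)

end Pool.PW
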